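import Pool.Agent.R703.FJ.Mod

set_option autoImplicit false

/-!
# Automorphism groups of finitely generated modules over arbitrary commutative rings
-/

namespace Pool.Agent.R703.FJ

open Pool.Agent.Y110.FJ
open Pool.Agent.Y462.SS (Closed)
open Pool.Agent.R941.FJ

variable {C : ∀ (G : Type) [Group G], Prop}

/-- the groups `GL_d` of the fields of fractions of the quotients of `R` by the primes which are minimal
over the annihilator of an element of `M` are in the class -/
def ResGL (C : ∀ (G : Type) [Group G], Prop) (R : Type) [CommRing R] (M : Type) [AddCommGroup M]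
    [Module R M] : Prop :=
  ∀ (P : Ideal R) (_ : P.IsPrime) (x : M), P ∈ (Ideal.torsionOf R M x).minimalPrimes →
    ∀ d : ℕ, C (GL (Fin d) (FractionRing (R ⧸ P)))

/-- groups acting on a Noetherian submodule over a smaller ring -/
theorem stab0 (hC : ClosedE C) (hmet : HasMet C) (R : Type) [CommRing R]
    (M : Type) [AddCommGroup M] [Module R M] (hR : ResGL C R M) (A : Type) [CommRing A] [IsNoetherianRing A]
    [Algebra A R] [Module A M] [IsScalarTower A R M] (M₀ : Submodule A M) [IsNoetherian A M₀]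
    (G : Type) [Group G] (f : G →* Module.End A M₀) (hf : Function.Injective f) : C G := by
  refine noeth hC hmet A {q | ∃ P : Ideal R, P.IsPrime ∧
    (∃ x : M, P ∈ (Ideal.torsionOf R M x).minimalPrimes) ∧ P.comap (algebraMap A R) = q} ?_ M₀
    (LinearMap.ker LinearMap.id) M₀ LinearMap.id Function.surjective_id rfl ?_ G f hf
  · rintro q hq ⟨P, hP, ⟨x, hx⟩, hPq⟩ d
    obtain ⟨j, hj⟩ := gl_change A R (algebraMap A R) q P hPq d
    exact hC.base.of_injective _ _ j hj (hR P hP x hx d)
  · intro x hx
    obtain ⟨q, hq⟩ : ∃ q : Ideal A, q = Ideal.torsionOf A M₀ x := ⟨_, rfl⟩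
    rw [← hq] at hx ⊢
    have hmem : ∀ a : A, a ∈ q ↔ algebraMap A R a ∈ Ideal.torsionOf R M (x : M) := by
      intro a
      rw [hq, Ideal.mem_torsionOf_iff, Ideal.mem_torsionOf_iff, algebraMap_smul]
      exact ⟨fun h => congrArg Subtype.val h, fun h => Subtype.ext h⟩
    obtain ⟨P', hP', hle', hdis'⟩ := Ideal.exists_le_prime_disjoint (I := Ideal.torsionOf R M (x : M))
      (q.primeCompl.map (algebraMap A R)) (by
        rw [Set.disjoint_left]
        rintro _ hr ⟨a, ha, rfl⟩
        exact ha ((hmem a).2 hr))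
    obtain ⟨P, hPm, hPP⟩ := Ideal.exists_minimalPrimes_le hle'
    have hP : P.IsPrime := hPm.1.1
    have hle : Ideal.torsionOf R M (x : M) ≤ P := hPm.1.2
    have hdis : Disjoint (P : Set R) (q.primeCompl.map (algebraMap A R) : Set R) :=
      hdis'.mono_left hPP
    refine ⟨P, hP, ⟨(x : M), hPm⟩, ?_⟩
    ext a
    rw [Ideal.mem_comap]
    constructor
    · intro ha
      by_contra hcon
      exact Set.disjoint_left.1 hdis ha ⟨a, hcon, rfl⟩
    · intro ha
      exact hle ((hmem a).1 ha)

/-- the case of an invariant Noetherian submodule over a smaller ring -/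
theorem stab (hC : ClosedE C) (hmet : HasMet C) (R : Type) [CommRing R]
    (M : Type) [AddCommGroup M] [Module R M] (hR : ResGL C R M) (A : Type) [CommRing A] [IsNoetherianRing A]
    [Algebra A R] [Module A M] [IsScalarTower A R M] (M₀ : Submodule A M) [IsNoetherian A M₀]
    (G : Type) [Group G] (f : G →* Module.End R M) (h1 : ∀ g, ∀ m ∈ M₀, f g m ∈ M₀)
    (h2 : ∀ g, (∀ m ∈ M₀, f g m = m) → g = 1) : C G := by
  refine stab0 hC hmet R M hR A M₀ G
    { toFun := fun g => ((f g).restrictScalars A).restrict (h1 g)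
      map_one' := ?_
      map_mul' := ?_ } ?_
  · ext m
    change f 1 (m : M) = m
    rw [map_one]
    rfl
  · intro a b
    ext m
    change f (a * b) (m : M) = f a (f b (m : M))
    rw [map_mul]
    rfl
  · rw [injective_iff_map_eq_one]
    intro g hg
    refine h2 g fun m hm => ?_
    exact congrArg (fun F : Module.End A M₀ => (F ⟨m, hm⟩ : M)) hg

/-- **automorphism groups of finitely generated modules** -/
theorem aut_mem (hC : ClosedE C) (hmet : HasMet C) (R : Type) [CommRing R]
    (M : Type) [AddCommGroup M] [Module R M] [Module.Finite R M] (hR : ResGL C R M)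
    (G : Type) [Group G] (f : G →* Module.End R M) (hf : Function.Injective f) : C G := by
  classical
  obtain ⟨s, hs⟩ := (Module.Finite.fg_top : (⊤ : Submodule R M).FG)
  have hc : ∀ (g : G) (m : M), ∃ c : M → R, ∑ e ∈ s, c e • e = f g m := by
    intro g m
    have h1 : f g m ∈ Submodule.span R (s : Set M) := by rw [hs]; exact Submodule.mem_top
    obtain ⟨c, -, hc⟩ := Submodule.mem_span_finset.1 h1
    exact ⟨c, hc⟩
  choose c hc using hc
  refine Pool.Agent.Y430.SS.of_directed hC.base G (Finset G) (fun i j => ?_)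
    (fun E => Subgroup.closure (E : Set G)) (fun E F h => Subgroup.closure_mono (by exact_mod_cast h))
    (fun g => ⟨{g}, Subgroup.subset_closure (by simp)⟩) (fun E => ?_)
  · exact ⟨i ∪ j, Finset.subset_union_left, Finset.subset_union_right⟩
  · obtain ⟨E', hE', hE2⟩ : ∃ E' : Finset G, (∀ g ∈ E, g ∈ E') ∧ ∀ g ∈ E, g⁻¹ ∈ E' :=
      ⟨E ∪ E.image (fun g => g⁻¹), fun g hg => Finset.mem_union_left _ hg,
        fun g hg => Finset.mem_union_right _ (Finset.mem_image_of_mem _ hg)⟩
    obtain ⟨S, hS⟩ : ∃ S : Finset R, S = (E' ×ˢ s ×ˢ s).image (fun t => c t.1 t.2.1 t.2.2) :=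
      ⟨_, rfl⟩
    obtain ⟨A, hA⟩ : ∃ A : Subalgebra ℤ R, A = Algebra.adjoin ℤ (S : Set R) := ⟨_, rfl⟩
    have hft : Algebra.FiniteType ℤ A := by
      rw [hA]
      exact (Subalgebra.fg_iff_finiteType _).1 ⟨S, rfl⟩
    have hnA : IsNoetherianRing A := Algebra.FiniteType.isNoetherianRing ℤ A
    obtain ⟨M₀, hM₀⟩ : ∃ M₀ : Submodule A M, M₀ = Submodule.span A (s : Set M) := ⟨_, rfl⟩
    have hfin : Module.Finite A M₀ := by
      rw [hM₀]
      exact Module.Finite.span_finset A s
    have hnM : IsNoetherian A M₀ := isNoetherian_of_isNoetherianRing_of_finite A M₀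
    have hsM : ∀ e ∈ s, e ∈ M₀ := fun e he => by rw [hM₀]; exact Submodule.subset_span he
    have hst : ∀ g ∈ E', ∀ m ∈ M₀, f g m ∈ M₀ := by
      intro g hg
      have h1 : M₀ ≤ M₀.comap ((f g).restrictScalars A) := by
        conv_lhs => rw [hM₀]
        refine Submodule.span_le.2 fun e he => ?_
        change f g e ∈ M₀
        rw [← hc g e]
        refine Submodule.sum_mem _ fun e' he' => ?_
        have h2 : c g e e' ∈ A := by
          rw [hA]
          refine Algebra.subset_adjoin ?_
          rw [hS, Finset.mem_coe, Finset.mem_image]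
          exact ⟨(g, e, e'), Finset.mem_product.2 ⟨hg, Finset.mem_product.2 ⟨he, he'⟩⟩, rfl⟩
        exact M₀.smul_mem (⟨_, h2⟩ : A) (hsM e' he')
      exact h1
    obtain ⟨K, hK⟩ : ∃ K : Subgroup G, ∀ g, g ∈ K ↔ (∀ m ∈ M₀, f g m ∈ M₀) ∧
        ∀ m ∈ M₀, f g⁻¹ m ∈ M₀ := by
      refine ⟨{ carrier := {g | (∀ m ∈ M₀, f g m ∈ M₀) ∧ ∀ m ∈ M₀, f g⁻¹ m ∈ M₀}
                mul_mem' := ?_
                one_mem' := ?_
                inv_mem' := ?_ }, fun g => Iff.rfl⟩
      · rintro a b ⟨ha, ha'⟩ ⟨hb, hb'⟩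
        refine ⟨fun m hm => ?_, fun m hm => ?_⟩
        · rw [map_mul]
          exact ha _ (hb m hm)
        · rw [mul_inv_rev, map_mul]
          exact hb' _ (ha' m hm)
      · refine ⟨fun m hm => ?_, fun m hm => ?_⟩
        · rw [map_one]
          exact hm
        · rw [inv_one, map_one]
          exact hm
      · rintro a ⟨ha, ha'⟩
        exact ⟨ha', by rw [inv_inv]; exact ha⟩
    have hEK : Subgroup.closure (E : Set G) ≤ K := by
      rw [Subgroup.closure_le]
      intro g hg
      exact (hK g).2 ⟨hst g (hE' g hg), hst _ (hE2 g hg)⟩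
    refine stab hC hmet R M hR A M₀ _ (f.comp (Subgroup.subtype _))
      (fun g m hm => ((hK g).1 (hEK g.2)).1 m hm) (fun g hg => ?_)
    apply Subtype.ext
    apply hf
    rw [Subgroup.coe_one, map_one]
    refine LinearMap.ext_on (s := (s : Set M)) hs fun e he => ?_
    exact hg e (hsM e he)

/-- units of module-finite algebras -/
theorem units_mem (hC : ClosedE C) (hmet : HasMet C) (R : Type) [CommRing R]
    (B : Type) [Ring B] [Algebra R B] [Module.Finite R B] (hR : ResGL C R B) : C Bˣ := by
  refine aut_mem hC hmet R B hR Bˣ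
    (((Algebra.lmul R B).toRingHom.toMonoidHom).comp (Units.coeHom B)) ?_
  intro a b h
  apply Units.ext
  have h1 := congrArg (fun F : Module.End R B => F 1) h
  simpa using h1

end Pool.Agent.R703.FJ
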