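import Pool.Agent.R703.FJ.Sem

set_option autoImplicit false

/-!
# The final forms
-/

namespace Pool.Agent.R703.FJ

open Pool.Agent.Y110.FJ

variable {C : ∀ (G : Type) [Group G], Prop}

theorem lin_mem (hC : ClosedE C) (hmet : HasMet C) (R : Type) [CommRing R]
    (M : Type) [AddCommGroup M] [Module R M] [Module.Finite R M] (hR : ResGL C R M) :
    C (M ≃ₗ[R] M) := by
  refine aut_mem hC hmet R M hR (M ≃ₗ[R] M)
    { toFun := fun e => (e : M →ₗ[R] M)
      map_one' := rfl
      map_mul' := fun _ _ => rfl } ?_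
  intro a b h
  exact LinearEquiv.toLinearMap_injective h

/-- minimal primes over an intersection of finitely many ideals -/
theorem min_inf {R ι : Type} [CommRing R] [Fintype ι] (I : ι → Ideal R) (J : Ideal R)
    (hJ : ∀ a, a ∈ J ↔ ∀ i, a ∈ I i) (P : Ideal R) (hP : P ∈ J.minimalPrimes) :
    ∃ i, P ∈ (I i).minimalPrimes := by
  classical
  have hPp : P.IsPrime := hP.1.1
  have hle : (Finset.univ.inf I) ≤ P := by
    intro a ha
    refine hP.1.2 ((hJ a).2 fun i => ?_)
    exact (Finset.inf_le (Finset.mem_univ i) : Finset.univ.inf I ≤ I i) ha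
  obtain ⟨i, -, hi⟩ := (Ideal.IsPrime.inf_le' hPp).1 hle
  refine ⟨i, ⟨hPp, hi⟩, fun Q hQ hQP => hP.2 ⟨hQ.1, fun a ha => hQ.2 ((hJ a).1 ha i)⟩ hQP⟩

theorem res_matrix (R : Type) [CommRing R] (n : ℕ) (hR : ResGL C R R) :
    ResGL C R (Matrix (Fin n) (Fin n) R) := by
  intro P hP x hx d
  obtain ⟨i, hi⟩ := min_inf (fun i : Fin n × Fin n => Ideal.torsionOf R R (x i.1 i.2)) _
    (fun a => by
      rw [Ideal.mem_torsionOf_iff]
      constructor
      · intro h i
        rw [Ideal.mem_torsionOf_iff]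
        exact congrFun (congrFun h i.1) i.2
      · intro h
        ext i j
        exact (Ideal.mem_torsionOf_iff _ _).1 (h (i, j))) P hx
  exact hR P hP _ hi d

theorem gl_mem (hC : ClosedE C) (hmet : HasMet C) (R : Type) [CommRing R] (hR : ResGL C R R)
    (n : ℕ) : C (GL (Fin n) R) :=
  units_mem hC hmet R (Matrix (Fin n) (Fin n) R) (res_matrix R n hR)

/-- **extensions, global form** -/
theorem ext_global (hC : ClosedE C) (hmet : HasMet C) {G : Type} [Group G] (N : Subgroup G)
    [N.Normal] (hQ : C (G ⧸ N)) (R : Type) [CommRing R] (M : Type) [AddCommGroup M] [Module R M]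
    [Module.Finite R M] (hR : ResGL C R M) (ι : N →* Module.End R M) (hι : Function.Injective ι)
    (h : ∀ g : G, ∃ (σ : R ≃+* R) (T : M ≃+ M), (∀ x : R, ∃ m : ℕ, 0 < m ∧ (σ ^ m) x = x) ∧
      (∀ (r : R) (m : M), T (r • m) = σ r • T m) ∧
      ∀ x y : N, (y : G) = g * x * g⁻¹ → ∀ m : M, ι y (T m) = T (ι x m)) : C G := by
  refine ext_local hC hmet N hQ fun g E hE hEN => ?_
  obtain ⟨σ, T, hσ, hT, h1⟩ := h g
  have hle : Subgroup.closure (E ∪ (fun x => g * x * g⁻¹) '' E) ≤ N := by
    rw [Subgroup.closure_le]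
    rintro x (hx | ⟨y, hy, rfl⟩)
    · exact hEN hx
    · exact Subgroup.Normal.conj_mem inferInstance y (hEN hy) g
  refine ⟨R, inferInstance, M, inferInstance, inferInstance, ι.comp (Subgroup.inclusion hle), σ, T,
    hR, inferInstance, hι.comp (Subgroup.inclusion_injective hle), hσ, hT, fun x y _ hy m => ?_⟩
  exact h1 (Subgroup.inclusion hle x) (Subgroup.inclusion hle y) hy m

end Pool.Agent.R703.FJ
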