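import Mathlib

set_option autoImplicit false

/-!
# Endomorphisms of torsion-free modules over quotient domains as matrices over fields
-/

namespace Pool.Agent.R703.FJ

open TensorProduct

/-- The endomorphisms of a finitely generated torsion-free module over a domain embed in the
matrices over the field of fractions. -/
theorem dom_rep (D : Type) [CommRing D] [IsDomain D] (T : Type) [AddCommGroup T] [Module D T]
    [Module.Finite D T] (h1 : ∀ a : D, a ≠ 0 → ∀ t : T, a • t = 0 → t = 0) :
    ∃ (d : ℕ) (f : Module.End D T →* Matrix (Fin d) (Fin d) (FractionRing D)),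
      Function.Injective f := by
  have hinj : ∀ t : T, (1 : FractionRing D) ⊗ₜ[D] t = 0 → t = 0 := by
    intro t ht
    have h2 := (IsLocalizedModule.eq_zero_iff (nonZeroDivisors D)
      (TensorProduct.mk D (FractionRing D) T 1) (m := t)).1 ht
    obtain ⟨c, hc⟩ := h2
    exact h1 c (nonZeroDivisors.coe_ne_zero c) t hc
  let b := Module.finBasis (FractionRing D) (FractionRing D ⊗[D] T)
  refine ⟨_, (LinearMap.toMatrixAlgEquiv b).toAlgHom.toRingHom.toMonoidHom.comp
    (Module.End.baseChangeHom D (FractionRing D) T).toRingHom.toMonoidHom, ?_⟩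
  intro φ ψ h
  have h3 : (Module.End.baseChangeHom D (FractionRing D) T) φ =
      (Module.End.baseChangeHom D (FractionRing D) T) ψ :=
    (LinearMap.toMatrixAlgEquiv b).injective h
  ext t
  have h4 := congrArg (fun F => F ((1 : FractionRing D) ⊗ₜ[D] t)) h3
  have h5 : (1 : FractionRing D) ⊗ₜ[D] (φ t) = (1 : FractionRing D) ⊗ₜ[D] (ψ t) := h4
  rw [← sub_eq_zero]
  apply hinj
  rw [TensorProduct.tmul_sub, h5, sub_self]

/-- The endomorphisms of a finitely generated module over `A / q` without torsion, as matrices over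
the field of fractions of `A / q`. -/
theorem quo_rep (A : Type) [CommRing A] (q : Ideal A) [q.IsPrime] (T : Type) [AddCommGroup T]
    [Module A T] [Module.Finite A T] (h0 : ∀ a ∈ q, ∀ t : T, a • t = 0)
    (h1 : ∀ a, a ∉ q → ∀ t : T, a • t = 0 → t = 0) :
    ∃ (d : ℕ) (f : Module.End A T →* Matrix (Fin d) (Fin d) (FractionRing (A ⧸ q))),
      Function.Injective f := by
  have ht : Module.IsTorsionBySet A T q := fun t a => h0 a a.2 t
  let _ : Module (A ⧸ q) T := ht.module
  have hst : IsScalarTower A (A ⧸ q) T := ht.isScalarTower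
  have hsm : ∀ (a : A) (t : T), (Ideal.Quotient.mk q a) • t = a • t := fun a t => rfl
  have hfin : Module.Finite (A ⧸ q) T := Module.Finite.of_restrictScalars_finite A (A ⧸ q) T
  obtain ⟨d, f, hf⟩ := dom_rep (A ⧸ q) T (by
    intro a ha t hat
    obtain ⟨a, rfl⟩ := Ideal.Quotient.mk_surjective a
    refine h1 a (fun h => ha (Ideal.Quotient.eq_zero_iff_mem.2 h)) t ?_
    rw [← hsm, hat])
  refine ⟨d, f.comp
    { toFun := fun φ => { toFun := φ, map_add' := φ.map_add, map_smul' := ?_ }
      map_one' := rfl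
      map_mul' := fun _ _ => rfl }, hf.comp ?_⟩
  · intro a t
    obtain ⟨a, rfl⟩ := Ideal.Quotient.mk_surjective a
    rw [hsm, φ.map_smul]
    rfl
  · intro φ ψ h
    ext t
    exact congrArg (fun F : Module.End (A ⧸ q) T => F t) h

/-- change of the field of fractions -/
theorem gl_change (A R : Type) [CommRing A] [CommRing R] (i : A →+* R) (q : Ideal A) [q.IsPrime]
    (P : Ideal R) [P.IsPrime] (h : P.comap i = q) (d : ℕ) :
    ∃ f : GL (Fin d) (FractionRing (A ⧸ q)) →* GL (Fin d) (FractionRing (R ⧸ P)),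
      Function.Injective f := by
  obtain ⟨j, hj⟩ : ∃ j : (A ⧸ q) →+* (R ⧸ P), Function.Injective j :=
    ⟨Ideal.quotientMap P i h.ge, Ideal.quotientMap_injective' h.le⟩
  have hj2 : Function.Injective ((algebraMap (R ⧸ P) (FractionRing (R ⧸ P))).comp j) :=
    (IsFractionRing.injective (R ⧸ P) (FractionRing (R ⧸ P))).comp hj
  refine ⟨Matrix.GeneralLinearGroup.map (IsFractionRing.lift (K := FractionRing (A ⧸ q)) hj2), ?_⟩
  intro x y hxy
  ext a b
  have h1 := congrArg (fun z : GL (Fin d) (FractionRing (R ⧸ P)) => z a b) hxy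
  exact (IsFractionRing.lift (K := FractionRing (A ⧸ q)) hj2).injective h1

end Pool.Agent.R703.FJ
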