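import Pool.Agent.R941.FJ.Hyper
import Pool.Agent.R703.FJ.Rep

set_option autoImplicit false

/-!
# Automorphism groups of Noetherian modules over commutative rings in the Farrell-Jones class
-/

namespace Pool.Agent.R703.FJ

open Pool.Agent.Y110.FJ
open Pool.Agent.Y462.SS (Closed)
open Pool.Agent.R941.FJ

/-- the class contains the metabelian groups -/
def HasMet (C : ∀ (G : Type) [Group G], Prop) : Prop :=
  ∀ (S : Type) [Group S], (∀ a ∈ commutator S, ∀ b ∈ commutator S, a * b = b * a) → C S

variable {C : ∀ (G : Type) [Group G], Prop}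

/-- extensions with abelian kernel -/
theorem ab_ext (hC : ClosedE C) (hmet : HasMet C) {G Q : Type} [Group G] [Group Q] (π : G →* Q)
    (hQ : C Q) (hab : ∀ a b : G, π a = 1 → π b = 1 → a * b = b * a) : C G := by
  have hq : C (G ⧸ π.ker) := C_equiv hC.base (QuotientGroup.quotientKerEquivRange π)
    (hC.base.of_injective _ _ π.range.subtype Subtype.val_injective hQ)
  refine hyper hC π.ker hq fun M hM hlt => ⟨π.ker, inferInstance, hlt, le_rfl, fun g => ?_⟩
  refine factor_ab hC hmet M π.ker (fun a ha b hb => ?_) g
  rw [hab a b ha hb, mul_assoc (b * a), ← mul_inv_rev, mul_inv_cancel]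
  exact M.one_mem

/-- the submodule of the elements killed by `q` -/
def kil {A X : Type} [CommRing A] [AddCommGroup X] [Module A X] (q : Ideal A) : Submodule A X where
  carrier := {x | ∀ a ∈ q, a • x = 0}
  add_mem' := fun hx hy a ha => by rw [smul_add, hx a ha, hy a ha, add_zero]
  zero_mem' := fun a _ => smul_zero a
  smul_mem' := fun c x hx a ha => by rw [smul_comm, hx a ha, smul_zero]

theorem mem_kil {A X : Type} [CommRing A] [AddCommGroup X] [Module A X] {q : Ideal A} {x : X} :
    x ∈ (kil q : Submodule A X) ↔ ∀ a ∈ q, a • x = 0 := Iff.rfl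

theorem kil_map {A X : Type} [CommRing A] [AddCommGroup X] [Module A X] (q : Ideal A)
    (φ : Module.End A X) (x : X) (hx : x ∈ (kil q : Submodule A X)) :
    φ x ∈ (kil q : Submodule A X) := fun a ha => by rw [← map_smul, hx a ha, map_zero]

/-- restriction of endomorphisms -/
def resE {A X : Type} [CommRing A] [AddCommGroup X] [Module A X] (q : Ideal A) :
    Module.End A X →* Module.End A (kil q : Submodule A X) where
  toFun φ := φ.restrict (kil_map q φ)
  map_one' := by ext x; rfl
  map_mul' φ ψ := by ext x; rfl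

/-- endomorphisms of the quotient -/
def quoE {A X : Type} [CommRing A] [AddCommGroup X] [Module A X] (q : Ideal A) :
    Module.End A X →* Module.End A (X ⧸ (kil q : Submodule A X)) where
  toFun φ := (kil q : Submodule A X).mapQ _ φ (kil_map q φ)
  map_one' := by ext x; rfl
  map_mul' φ ψ := by ext x; rfl

theorem noeth (hC : ClosedE C) (hmet : HasMet C) (A : Type) [CommRing A] [IsNoetherianRing A]
    (PP : Set (Ideal A))
    (hGL : ∀ (q : Ideal A) (_ : q.IsPrime), q ∈ PP → ∀ d, C (GL (Fin d) (FractionRing (A ⧸ q))))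
    (M₀ : Type) [AddCommGroup M₀] [Module A M₀] [IsNoetherian A M₀] (N : Submodule A M₀) :
    ∀ (X : Type) [AddCommGroup X] [Module A X] (p : M₀ →ₗ[A] X), Function.Surjective p →
      LinearMap.ker p = N →
      (∀ x : X, (Ideal.torsionOf A X x).IsPrime → Ideal.torsionOf A X x ∈ PP) →
      ∀ (G : Type) [Group G] (f : G →* Module.End A X), Function.Injective f → C G := by
  refine IsNoetherian.induction (P := fun N : Submodule A M₀ =>
    ∀ (X : Type) [AddCommGroup X] [Module A X] (p : M₀ →ₗ[A] X), Function.Surjective p →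
      LinearMap.ker p = N →
      (∀ x : X, (Ideal.torsionOf A X x).IsPrime → Ideal.torsionOf A X x ∈ PP) →
      ∀ (G : Type) [Group G] (f : G →* Module.End A X), Function.Injective f → C G) ?_ N
  intro N IH X _ _ p hp hker hInv G _ f hf
  have hmt : ∀ (x : X) (a : A), a ∈ Ideal.torsionOf A X x ↔ a • x = 0 := fun x a =>
    Ideal.mem_torsionOf_iff x a
  by_cases hX : ∀ x : X, x = 0
  · have hs : Subsingleton G := ⟨fun a b => hf (by ext x; rw [hX (f a x), hX (f b x)])⟩
    exact Pool.Agent.Y430.SS.of_finite hC.base G inferInstance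
  · rw [not_forall] at hX
    obtain ⟨x₀, hx₀⟩ := hX
    have hnX : IsNoetherian A X :=
      isNoetherian_of_surjective p (LinearMap.range_eq_top.2 hp)
    obtain ⟨q, ⟨x₁, hx₁, rfl⟩, hmax⟩ := set_has_maximal_iff_noetherian.2
      (inferInstance : IsNoetherian A A) {I : Ideal A | ∃ x : X, x ≠ 0 ∧ Ideal.torsionOf A X x = I}
      ⟨_, x₀, hx₀, rfl⟩
    obtain ⟨q, hq⟩ : ∃ q : Ideal A, q = Ideal.torsionOf A X x₁ := ⟨_, rfl⟩
    rw [← hq] at hmax
    have hqx : ∀ a ∈ q, a • x₁ = 0 := fun a ha => (hmt x₁ a).1 (hq ▸ ha)
    have hmax' : ∀ x : X, x ≠ 0 → q ≤ Ideal.torsionOf A X x → Ideal.torsionOf A X x ≤ q := by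
      intro x hx hle
      by_contra hcon
      exact hmax _ ⟨x, hx, rfl⟩ (lt_of_le_not_ge hle hcon)
    have hqp : q.IsPrime := by
      refine ⟨fun h => hx₁ ?_, fun {a b} hab => ?_⟩
      · rw [← one_smul A x₁]
        exact hqx 1 (h ▸ Submodule.mem_top)
      · by_contra hcon
        rw [not_or] at hcon
        have hb : b • x₁ ≠ 0 := fun h => hcon.2 (hq ▸ (hmt x₁ b).2 h)
        refine hcon.1 (hmax' (b • x₁) hb (fun c hc => (hmt _ c).2 ?_) ((hmt _ a).2 ?_))
        · rw [smul_comm, hqx c hc, smul_zero]
        · rw [← mul_smul]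
          exact hqx _ hab
    obtain ⟨T, hT⟩ : ∃ T : Submodule A X, T = kil q := ⟨_, rfl⟩
    have hx₁T : x₁ ∈ (kil q : Submodule A X) := hqx
    have hqPP : q ∈ PP := by
      rw [hq] at hqp ⊢
      exact hInv x₁ hqp
    -- the representation on the submodule
    obtain ⟨d, r, hr⟩ := quo_rep A q (kil q : Submodule A X)
      (fun a ha t => Subtype.ext (t.2 a ha)) (fun a ha t hat => by
        by_contra hcon
        have ht : (t : X) ≠ 0 := fun h => hcon (Subtype.ext h)
        exact ha (hmax' (t : X) ht (fun c hc => (hmt _ c).2 (t.2 c hc))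
          ((hmt _ a).2 (congrArg Subtype.val hat))))
    have hC2 : C ((resE q).comp f).toHomUnits.range := by
      refine hC.base.of_injective _ (GL (Fin d) (FractionRing (A ⧸ q)))
        ((Units.map r).comp (Subgroup.subtype _)) ?_ (hGL q hqp hqPP d)
      exact (Units.map_injective hr).comp Subtype.val_injective
    -- the quotient
    have hC1 : C ((quoE q).comp f).toHomUnits.range := by
      refine IH (LinearMap.ker ((kil q : Submodule A X).mkQ.comp p)) ?_
        (X ⧸ (kil q : Submodule A X)) ((kil q : Submodule A X).mkQ.comp p)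
        ((Submodule.mkQ_surjective _).comp hp) rfl ?_ _
        ((Units.coeHom _).comp (Subgroup.subtype _)) (Units.val_injective.comp Subtype.val_injective)
      · refine lt_of_le_of_ne ?_ ?_
        · rw [← hker]
          intro m hm
          rw [LinearMap.mem_ker] at hm ⊢
          rw [LinearMap.comp_apply, hm, map_zero]
        · intro h
          obtain ⟨m, rfl⟩ := hp x₁
          have h1 : m ∈ LinearMap.ker ((kil q : Submodule A X).mkQ.comp p) := by
            rw [LinearMap.mem_ker, LinearMap.comp_apply, Submodule.mkQ_apply,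
              Submodule.Quotient.mk_eq_zero]
            exact hx₁T
          rw [← h, ← hker, LinearMap.mem_ker] at h1
          exact hx₁ h1
      · intro z hz
        obtain ⟨x, rfl⟩ := Submodule.mkQ_surjective _ z
        obtain ⟨q', hq'⟩ : ∃ q' : Ideal A, q' = Ideal.torsionOf A (X ⧸ (kil q : Submodule A X))
          ((kil q : Submodule A X).mkQ x) := ⟨_, rfl⟩
        rw [← hq'] at hz ⊢
        have hmem : ∀ b : A, b ∈ q' ↔ b • x ∈ (kil q : Submodule A X) := by
          intro b
          rw [hq', Ideal.mem_torsionOf_iff, ← map_smul, Submodule.mkQ_apply,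
            Submodule.Quotient.mk_eq_zero]
        obtain ⟨s, hs⟩ := (isNoetherianRing_iff_ideal_fg A).1 inferInstance q
        have h : s.inf (fun a => Ideal.torsionOf A X (a • x)) ≤ q' := by
          intro b hb
          rw [hmem, mem_kil]
          have h1 : q ≤ Ideal.torsionOf A X (b • x) := by
            rw [← hs]
            refine Submodule.span_le.2 fun a ha => ?_
            rw [SetLike.mem_coe, hmt, smul_comm]
            exact (hmt _ _).1 ((Finset.inf_le (f := fun a => Ideal.torsionOf A X (a • x)) ha) hb)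
          exact fun a ha => (hmt _ _).1 (h1 ha)
        obtain ⟨a, ha, hle⟩ := (Ideal.IsPrime.inf_le' hz).1 h
        have haq : a ∈ q := by rw [← hs]; exact Submodule.subset_span ha
        have heq : Ideal.torsionOf A X (a • x) = q' := by
          refine le_antisymm hle fun c hc => ?_
          rw [hmt, smul_comm]
          exact (hmem c).1 hc a haq
        rw [← heq]
        apply hInv
        rw [heq]
        exact hz
    refine ab_ext hC hmet (((quoE q).comp f).toHomUnits.rangeRestrict.prod
      ((resE q).comp f).toHomUnits.rangeRestrict) (hC.base.prod _ _ hC1 hC2) ?_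
    have key : ∀ a : G, (((quoE q).comp f).toHomUnits.rangeRestrict.prod
        ((resE q).comp f).toHomUnits.rangeRestrict) a = 1 →
        (∀ x : X, f a x - x ∈ (kil q : Submodule A X)) ∧
          ∀ t ∈ (kil q : Submodule A X), f a t = t := by
      intro a ha
      have h1 : quoE q (f a) = 1 := congrArg (fun z => ((z.1.1 : (Module.End A
        (X ⧸ (kil q : Submodule A X)))ˣ) : Module.End A (X ⧸ (kil q : Submodule A X)))) ha
      have h2 : resE q (f a) = 1 := congrArg (fun z => ((z.2.1 : (Module.End A
        (kil q : Submodule A X))ˣ) : Module.End A (kil q : Submodule A X))) ha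
      refine ⟨fun x => ?_, fun t ht => ?_⟩
      · have h3 : (kil q : Submodule A X).mkQ (f a x) = (kil q : Submodule A X).mkQ x :=
          congrArg (fun F : Module.End A (X ⧸ (kil q : Submodule A X)) =>
            F ((kil q : Submodule A X).mkQ x)) h1
        exact (Submodule.Quotient.eq _).1 h3
      · exact congrArg (fun F : Module.End A (kil q : Submodule A X) => (F ⟨t, ht⟩ : X)) h2
    intro a b ha hb
    obtain ⟨ha1, ha2⟩ := key a ha
    obtain ⟨hb1, hb2⟩ := key b hb
    apply hf
    rw [map_mul, map_mul]
    ext x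
    rw [Module.End.mul_apply, Module.End.mul_apply]
    have h1 : f a (f b x) = f a x + (f b x - x) := by
      conv_lhs => rw [← add_sub_cancel x (f b x), map_add, ha2 _ (hb1 x)]
    have h2 : f b (f a x) = f b x + (f a x - x) := by
      conv_lhs => rw [← add_sub_cancel x (f a x), map_add, hb2 _ (ha1 x)]
    rw [h1, h2]
    abel

end Pool.Agent.R703.FJ
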