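import Pool.Agent.R703.FJ.Aut

set_option autoImplicit false

/-!
# Extensions with a kernel which acts on a finitely generated module over a commutative ring
-/

namespace Pool.Agent.R703.FJ

open Pool.Agent.Y110.FJ
open Pool.Agent.Y462.SS (Closed)
open Pool.Agent.R941.FJ

variable {C : ∀ (G : Type) [Group G], Prop}

/-- the semilinear automorphisms for the powers of `σ` -/
def semP {A X : Type} [CommRing A] [AddCommGroup X] [Module A X] (σ : A ≃+* A) :
    Subgroup ((AddMonoid.End X)ˣ × (A ≃+* A)) where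
  carrier := {p | p.2 ∈ Subgroup.zpowers σ ∧
    ∀ (r : A) (x : X), (p.1 : AddMonoid.End X) (r • x) = p.2 r • (p.1 : AddMonoid.End X) x}
  mul_mem' := by
    rintro a b ⟨ha, ha'⟩ ⟨hb, hb'⟩
    refine ⟨Subgroup.mul_mem _ ha hb, fun r x => ?_⟩
    change (a.1 : AddMonoid.End X) ((b.1 : AddMonoid.End X) (r • x)) =
      a.2 (b.2 r) • (a.1 : AddMonoid.End X) ((b.1 : AddMonoid.End X) x)
    rw [hb', ha']
  one_mem' := ⟨Subgroup.one_mem _, fun r x => rfl⟩
  inv_mem' := by
    rintro a ⟨ha, ha'⟩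
    refine ⟨Subgroup.inv_mem _ ha, fun r x => ?_⟩
    have h1 : ∀ y : X, (a.1 : AddMonoid.End X)
        ((((a.1)⁻¹ : (AddMonoid.End X)ˣ) : AddMonoid.End X) y) = y := fun y =>
      congrArg (fun F : AddMonoid.End X => F y) (Units.mul_inv a.1)
    have h2 : ∀ y : X, (((a.1)⁻¹ : (AddMonoid.End X)ˣ) : AddMonoid.End X)
        ((a.1 : AddMonoid.End X) y) = y := fun y =>
      congrArg (fun F : AddMonoid.End X => F y) (Units.inv_mul a.1)
    have h3 : a.2 ((a.2)⁻¹ r) = r := RingEquiv.apply_symm_apply a.2 r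
    change (((a.1)⁻¹ : (AddMonoid.End X)ˣ) : AddMonoid.End X) (r • x) =
      (a.2)⁻¹ r • (((a.1)⁻¹ : (AddMonoid.End X)ˣ) : AddMonoid.End X) x
    rw [← h2 ((a.2)⁻¹ r • (((a.1)⁻¹ : (AddMonoid.End X)ˣ) : AddMonoid.End X) x), ha', h3, h1]

theorem C_semP (hC : ClosedE C) {A X : Type} [CommRing A] [AddCommGroup X] [Module A X]
    (σ : A ≃+* A) (hσ : IsOfFinOrder σ)
    (hlin : ∀ (G : Type) [Group G] (f : G →* Module.End A X), Function.Injective f → C G) :
    C (semP σ : Subgroup ((AddMonoid.End X)ˣ × (A ≃+* A))) := by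
  obtain ⟨π, hπ⟩ : ∃ π : (semP σ : Subgroup ((AddMonoid.End X)ˣ × (A ≃+* A))) →* (A ≃+* A),
      π = (MonoidHom.snd _ _).comp (Subgroup.subtype _) := ⟨_, rfl⟩
  have hpi : ∀ z, π z = z.1.2 := fun z => by rw [hπ]; rfl
  have hz : Finite (Subgroup.zpowers σ) := (finite_zpowers.2 hσ).to_subtype
  have hle : π.range ≤ Subgroup.zpowers σ := by
    rintro _ ⟨x, rfl⟩
    rw [hpi]
    exact x.2.1
  have hfr : Finite π.range := Finite.of_injective _ (Subgroup.inclusion_injective hle)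
  refine hC.base.finiteIndex _ π.ker inferInstance ?_
  refine hlin _
    { toFun := fun x => { toFun := ((x.1.1.1 : (AddMonoid.End X)ˣ) : AddMonoid.End X)
                          map_add' := map_add _
                          map_smul' := ?_ }
      map_one' := rfl
      map_mul' := fun _ _ => rfl } ?_
  · intro r m
    have h1 : x.1.1.2 = 1 := (hpi _).symm.trans x.2
    have h2 := x.1.2.2 r m
    rw [h1] at h2
    exact h2
  · intro x y h
    have hx : x.1.1.2 = 1 := (hpi _).symm.trans x.2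
    have hy : y.1.1.2 = 1 := (hpi _).symm.trans y.2
    apply Subtype.ext
    apply Subtype.ext
    apply Prod.ext
    · apply Units.ext
      ext m
      exact congrArg (fun F : Module.End A X => F m) h
    · rw [hx, hy]

/-- a finite set is contained in a finite invariant set -/
theorem fin_inv {R : Type} [CommRing R] (σ : R ≃+* R)
    (hσ : ∀ x : R, ∃ m : ℕ, 0 < m ∧ (σ ^ m) x = x) (S : Set R) (hS : S.Finite) :
    ∃ (S' : Set R) (K : ℕ), S'.Finite ∧ S ⊆ S' ∧ (∀ x ∈ S', σ x ∈ S') ∧ (∀ x ∈ S', σ⁻¹ x ∈ S') ∧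
      0 < K ∧ ∀ x ∈ S', (σ ^ K) x = x := by
  choose m hm0 hm using hσ
  have hpow : ∀ (x : R) (j : ℕ), (σ ^ (m x * j)) x = x := by
    intro x j
    induction j with
    | zero => rfl
    | succ j ih =>
      rw [Nat.mul_succ, pow_add]
      change (σ ^ (m x * j)) ((σ ^ m x) x) = x
      rw [hm, ih]
  obtain ⟨K, hK0, hK⟩ : ∃ K : ℕ, 0 < K ∧ ∀ x ∈ S, (σ ^ K) x = x := by
    refine ⟨∏ x ∈ hS.toFinset, m x, Finset.prod_pos fun x _ => hm0 x, fun x hx => ?_⟩
    obtain ⟨j, hj⟩ := Finset.dvd_prod_of_mem m (hS.mem_toFinset.2 hx)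
    rw [hj]
    exact hpow x j
  have hcomm : ∀ (a b : ℤ) (x : R), (σ ^ a) ((σ ^ b) x) = (σ ^ (a + b)) x := by
    intro a b x
    rw [zpow_add]
    rfl
  have hKz : ∀ (j : ℤ), ∀ x ∈ S, (σ ^ ((K : ℤ) * j)) x = x := by
    intro j x hx
    have h1 : (σ ^ (K : ℤ)) x = x := by
      rw [zpow_natCast]
      exact hK x hx
    have h2 : (σ ^ (-(K : ℤ))) x = x := by
      conv_lhs => rw [← h1]
      rw [hcomm, neg_add_cancel, zpow_zero]
      rfl
    induction j with
    | zero => rw [mul_zero, zpow_zero]; rfl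
    | succ j ih =>
      rw [mul_add, mul_one, ← hcomm, h1, ih]
    | pred j ih =>
      rw [mul_sub, mul_one, sub_eq_add_neg, ← hcomm, h2, ih]
  refine ⟨{y | ∃ k : ℤ, ∃ x ∈ S, (σ ^ k) x = y}, K, ?_, fun x hx => ⟨0, x, hx, rfl⟩, ?_, ?_, hK0, ?_⟩
  · have h1 : {y | ∃ k : ℤ, ∃ x ∈ S, (σ ^ k) x = y} ⊆
        ⋃ k ∈ Finset.range K, (fun x => (σ ^ k) x) '' S := by
      rintro _ ⟨k, x, hx, rfl⟩
      have hk0 : (0 : ℤ) < K := by exact_mod_cast hK0
      obtain ⟨r, hr⟩ : ∃ r : ℕ, (r : ℤ) = k % K := ⟨(k % K).toNat, Int.toNat_of_nonneg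
        (Int.emod_nonneg _ hk0.ne')⟩
      have hrK : r < K := by
        have := Int.emod_lt_of_pos k hk0
        omega
      refine Set.mem_biUnion (Finset.mem_range.2 hrK) ⟨x, hx, ?_⟩
      have h2 : (σ ^ k) x = (σ ^ (k % K)) x := by
        conv_lhs => rw [← Int.emod_add_mul_ediv k K, ← hcomm, hKz _ x hx]
      rw [h2, ← hr, zpow_natCast]
    exact (Set.Finite.biUnion (Finset.finite_toSet _) fun k _ => hS.image _).subset h1
  · rintro _ ⟨k, x, hx, rfl⟩
    refine ⟨1 + k, x, hx, ?_⟩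
    rw [← hcomm, zpow_one]
  · rintro _ ⟨k, x, hx, rfl⟩
    refine ⟨-1 + k, x, hx, ?_⟩
    rw [← hcomm, zpow_neg_one]
  · rintro _ ⟨k, x, hx, rfl⟩
    have h1 : (σ ^ K) ((σ ^ k) x) = (σ ^ k) ((σ ^ (K : ℤ)) x) := by
      rw [hcomm, add_comm, ← hcomm, zpow_natCast]
    rw [h1, zpow_natCast, hK x hx]

/-- coefficients of finitely many vectors -/
theorem coef {R M : Type} [CommRing R] [AddCommGroup M] [Module R M] (s : Finset M)
    (hs : Submodule.span R (s : Set M) = ⊤) (V : Set M) (hV : V.Finite) :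
    ∃ S : Set R, S.Finite ∧ ∀ A : Subalgebra ℤ R, S ⊆ A → ∀ v ∈ V,
      v ∈ Submodule.span A (s : Set M) := by
  classical
  have hc : ∀ v : M, ∃ c : M → R, ∑ e ∈ s, c e • e = v := by
    intro v
    have h1 : v ∈ Submodule.span R (s : Set M) := by rw [hs]; exact Submodule.mem_top
    obtain ⟨c, -, hc⟩ := Submodule.mem_span_finset.1 h1
    exact ⟨c, hc⟩
  choose c hc using hc
  refine ⟨⋃ v ∈ V, c v '' (s : Set M), hV.biUnion fun v _ => (s.finite_toSet).image _, ?_⟩
  intro A hA v hv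
  rw [← hc v]
  refine Submodule.sum_mem _ fun e he => ?_
  have h1 : c v e ∈ A := hA (Set.mem_biUnion hv ⟨e, he, rfl⟩)
  exact Submodule.smul_mem _ (⟨_, h1⟩ : A) (Submodule.subset_span he)

/-- the realization of a semilinear conjugation on a finitely generated group -/
theorem real_abs (hC : ClosedE C) (hmet : HasMet C) (R : Type) [CommRing R]
    (M : Type) [AddCommGroup M] [Module R M] [Module.Finite R M] (hR : ResGL C R M) (H : Type) [Group H] (F : Set H)
    (hF : F.Finite) (hcl : Subgroup.closure F = ⊤) (ρ : H →* Module.End R M)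
    (hρ : Function.Injective ρ) (σ : R ≃+* R) (hσ : ∀ x : R, ∃ m : ℕ, 0 < m ∧ (σ ^ m) x = x)
    (T : M ≃+ M) (hT : ∀ (r : R) (m : M), T (r • m) = σ r • T m) :
    ∃ (P : Type) (_ : Group P) (f : H →* P) (p : P), C P ∧ Function.Injective f ∧
      ∀ x y : H, (∀ m : M, ρ y (T m) = T (ρ x m)) → f y = p * f x * p⁻¹ := by
  classical
  obtain ⟨s, hs⟩ := (Module.Finite.fg_top : (⊤ : Submodule R M).FG)
  have hTs : ∀ (r : R) (m : M), T.symm (r • m) = σ⁻¹ r • T.symm m := by
    intro r m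
    apply T.injective
    rw [hT, T.apply_symm_apply, T.apply_symm_apply]
    congr 1
    exact (RingEquiv.apply_symm_apply σ r).symm
  obtain ⟨S, hS, hSV⟩ := coef s hs
    ((Set.image2 (fun n e => ρ n e) (F ∪ F⁻¹) (s : Set M)) ∪ (T '' (s : Set M) ∪
      T.symm '' (s : Set M)))
    ((Set.Finite.image2 _ (hF.union hF.inv) s.finite_toSet).union
      ((s.finite_toSet.image _).union (s.finite_toSet.image _)))
  obtain ⟨S', K, hS', hSS', hσS, hσS', hK0, hK⟩ := fin_inv σ hσ S hS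
  obtain ⟨A, hA⟩ : ∃ A : Subalgebra ℤ R, A = Algebra.adjoin ℤ S' := ⟨_, rfl⟩
  have hft : Algebra.FiniteType ℤ A := by
    rw [hA]
    refine (Subalgebra.fg_iff_finiteType _).1 ⟨hS'.toFinset, ?_⟩
    rw [Set.Finite.coe_toFinset]
  have hnA : IsNoetherianRing A := Algebra.FiniteType.isNoetherianRing ℤ A
  have hσA : ∀ a ∈ A, σ a ∈ A := by
    intro a ha
    have h1 : A ≤ A.comap ((σ : R →+* R).toIntAlgHom) := by
      conv_lhs => rw [hA]
      refine Algebra.adjoin_le fun x hx => ?_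
      change σ x ∈ A
      rw [hA]
      exact Algebra.subset_adjoin (hσS x hx)
    exact h1 ha
  have hσA' : ∀ a ∈ A, σ⁻¹ a ∈ A := by
    intro a ha
    have h1 : A ≤ A.comap (((σ⁻¹ : R ≃+* R) : R →+* R).toIntAlgHom) := by
      conv_lhs => rw [hA]
      refine Algebra.adjoin_le fun x hx => ?_
      change σ⁻¹ x ∈ A
      rw [hA]
      exact Algebra.subset_adjoin (hσS' x hx)
    exact h1 ha
  have hKA : ∀ a ∈ A, (σ ^ K) a = a := by
    intro a ha
    rw [hA] at ha
    refine Algebra.adjoin_induction (fun x hx => hK x hx) (fun r => ?_) (fun x y _ _ hx hy => ?_)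
      (fun x y _ _ hx hy => ?_) ha
    · exact map_intCast ((σ ^ K : R ≃+* R)) r
    · rw [map_add, hx, hy]
    · rw [map_mul, hx, hy]
  let τ : A ≃+* A :=
    { toFun := fun a => ⟨σ a, hσA a a.2⟩
      invFun := fun a => ⟨σ⁻¹ a, hσA' a a.2⟩
      left_inv := fun a => Subtype.ext (RingEquiv.symm_apply_apply σ (a : R))
      right_inv := fun a => Subtype.ext (RingEquiv.apply_symm_apply σ (a : R))
      map_mul' := fun a b => Subtype.ext (map_mul σ (a : R) (b : R))
      map_add' := fun a b => Subtype.ext (map_add σ (a : R) (b : R)) }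
  have hτ : ∀ (j : ℕ) (a : A), (((τ ^ j) a : A) : R) = (σ ^ j) (a : R) := by
    intro j
    induction j with
    | zero => intro a; rfl
    | succ j ih =>
      intro a
      rw [pow_succ, pow_succ]
      change (((τ ^ j) (τ a) : A) : R) = (σ ^ j) (σ (a : R))
      rw [ih]
      rfl
  have hτf : IsOfFinOrder τ := by
    rw [isOfFinOrder_iff_pow_eq_one]
    refine ⟨K, hK0, ?_⟩
    ext a
    rw [hτ, hKA _ a.2]
    rfl
  obtain ⟨M₀, hM₀⟩ : ∃ M₀ : Submodule A M, M₀ = Submodule.span A (s : Set M) := ⟨_, rfl⟩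
  have hfin : Module.Finite A M₀ := by
    rw [hM₀]
    exact Module.Finite.span_finset A s
  have hnM : IsNoetherian A M₀ := isNoetherian_of_isNoetherianRing_of_finite A M₀
  have hsM : ∀ e ∈ s, e ∈ M₀ := fun e he => by rw [hM₀]; exact Submodule.subset_span he
  have hSA : S ⊆ A := fun x hx => by
    rw [hA]
    exact Algebra.subset_adjoin (hSS' hx)
  have hTM : ∀ m ∈ M₀, T m ∈ M₀ := by
    intro m hm
    rw [hM₀] at hm
    refine Submodule.span_induction (fun e he => ?_) ?_ (fun x y _ _ hx hy => ?_)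
      (fun a x _ hx => ?_) hm
    · rw [hM₀]
      exact hSV A hSA _ (Or.inr (Or.inl ⟨e, he, rfl⟩))
    · rw [map_zero]
      exact M₀.zero_mem
    · rw [map_add]
      exact M₀.add_mem hx hy
    · change T ((a : R) • x) ∈ M₀
      rw [hT]
      exact M₀.smul_mem (⟨σ a, hσA a a.2⟩ : A) hx
  have hTM' : ∀ m ∈ M₀, T.symm m ∈ M₀ := by
    intro m hm
    rw [hM₀] at hm
    refine Submodule.span_induction (fun e he => ?_) ?_ (fun x y _ _ hx hy => ?_)
      (fun a x _ hx => ?_) hm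
    · rw [hM₀]
      exact hSV A hSA _ (Or.inr (Or.inr ⟨e, he, rfl⟩))
    · rw [map_zero]
      exact M₀.zero_mem
    · rw [map_add]
      exact M₀.add_mem hx hy
    · change T.symm ((a : R) • x) ∈ M₀
      rw [hTs]
      exact M₀.smul_mem (⟨σ⁻¹ a, hσA' a a.2⟩ : A) hx
  have hst : ∀ n ∈ F ∪ F⁻¹, ∀ m ∈ M₀, ρ n m ∈ M₀ := by
    intro n hn
    have h1 : M₀ ≤ M₀.comap ((ρ n).restrictScalars A) := by
      conv_lhs => rw [hM₀]
      refine Submodule.span_le.2 fun e he => ?_
      change ρ n e ∈ M₀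
      rw [hM₀]
      exact hSV A hSA _ (Or.inl ⟨n, hn, e, he, rfl⟩)
    exact h1
  have hst' : ∀ n : H, ∀ m ∈ M₀, ρ n m ∈ M₀ := by
    intro n
    have hn : n ∈ Subgroup.closure F := by rw [hcl]; exact Subgroup.mem_top n
    refine Subgroup.closure_induction'' (fun x hx => hst x (Or.inl hx))
      (fun x hx => hst _ (Or.inr (Set.inv_mem_inv.2 hx))) ?_ (fun x y _ _ hx hy => ?_) hn
    · intro m hm
      rw [map_one]
      exact hm
    · intro m hm
      rw [map_mul]
      exact hx _ (hy m hm)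
  have hlin : ∀ (G : Type) [Group G] (f : G →* Module.End A M₀), Function.Injective f → C G :=
    fun G _ f hf => stab0 hC hmet R M hR A M₀ G f hf
  let f₀ : H →* AddMonoid.End M₀ :=
    { toFun := fun n =>
        { toFun := fun m => ⟨ρ n m, hst' n m m.2⟩
          map_zero' := Subtype.ext (map_zero (ρ n))
          map_add' := fun x y => Subtype.ext (map_add (ρ n) (x : M) (y : M)) }
      map_one' := by
        ext m
        change ρ 1 (m : M) = m
        rw [map_one]
        rfl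
      map_mul' := fun a b => by
        ext m
        change ρ (a * b) (m : M) = ρ a (ρ b (m : M))
        rw [map_mul]
        rfl }
  let u : (AddMonoid.End M₀)ˣ :=
    { val := { toFun := fun m => ⟨T m, hTM m m.2⟩
               map_zero' := Subtype.ext (map_zero T)
               map_add' := fun x y => Subtype.ext (map_add T (x : M) (y : M)) }
      inv := { toFun := fun m => ⟨T.symm m, hTM' m m.2⟩
               map_zero' := Subtype.ext (map_zero T.symm)
               map_add' := fun x y => Subtype.ext (map_add T.symm (x : M) (y : M)) }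
      val_inv := by
        ext m
        exact T.apply_symm_apply (m : M)
      inv_val := by
        ext m
        exact T.symm_apply_apply (m : M) }
  have hfm : ∀ n : H, (f₀.toHomUnits n, (1 : A ≃+* A)) ∈
      (semP τ : Subgroup ((AddMonoid.End M₀)ˣ × (A ≃+* A))) := by
    intro n
    refine ⟨Subgroup.one_mem _, fun r x => ?_⟩
    apply Subtype.ext
    change ρ n ((r : R) • (x : M)) = (r : R) • ρ n (x : M)
    rw [map_smul]
  have hum : (u, τ) ∈ (semP τ : Subgroup ((AddMonoid.End M₀)ˣ × (A ≃+* A))) := by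
    refine ⟨Subgroup.mem_zpowers τ, fun r x => ?_⟩
    apply Subtype.ext
    change T ((r : R) • (x : M)) = σ (r : R) • T (x : M)
    rw [hT]
  refine ⟨_, inferInstance, (f₀.toHomUnits.prod (1 : H →* (A ≃+* A))).codRestrict _ hfm,
    ⟨_, hum⟩, C_semP hC τ hτf hlin, ?_, ?_⟩
  · intro a b hab
    apply hρ
    refine LinearMap.ext_on (s := (s : Set M)) hs fun e he => ?_
    have h1 : (((f₀.toHomUnits a : (AddMonoid.End M₀)ˣ) : AddMonoid.End M₀)) =
        ((f₀.toHomUnits b : (AddMonoid.End M₀)ˣ) : AddMonoid.End M₀) :=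
      congrArg (fun z => ((z.1.1 : (AddMonoid.End M₀)ˣ) : AddMonoid.End M₀)) hab
    exact congrArg (fun F : AddMonoid.End M₀ => ((F ⟨e, hsM e he⟩ : M₀) : M)) h1
  · intro x y hxy
    rw [eq_mul_inv_iff_mul_eq]
    apply Subtype.ext
    apply Prod.ext
    · apply Units.ext
      ext m
      exact hxy (m : M)
    · change (1 : A ≃+* A) * τ = τ * 1
      rw [one_mul, mul_one]

/-- semilinear conjugations are realized -/
theorem realized_of (hC : ClosedE C) (hmet : HasMet C) {G : Type} [Group G] (g : G) (E : Set G)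
    (hE : E.Finite) (R : Type) [CommRing R] (M : Type) [AddCommGroup M] [Module R M]
    [Module.Finite R M] (hR : ResGL C R M)
    (ρ : ↥(Subgroup.closure (E ∪ (fun x => g * x * g⁻¹) '' E)) →* Module.End R M)
    (hρ : Function.Injective ρ) (σ : R ≃+* R) (hσ : ∀ x : R, ∃ m : ℕ, 0 < m ∧ (σ ^ m) x = x)
    (T : M ≃+ M) (hT : ∀ (r : R) (m : M), T (r • m) = σ r • T m)
    (h : ∀ x y : ↥(Subgroup.closure (E ∪ (fun x => g * x * g⁻¹) '' E)), (x : G) ∈ E →
      (y : G) = g * x * g⁻¹ → ∀ m : M, ρ y (T m) = T (ρ x m)) :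
    Realized C g E := by
  have hfin : (E ∪ (fun x => g * x * g⁻¹) '' E).Finite := hE.union (hE.image _)
  obtain ⟨P, iP, f, p, hP, hf, hp⟩ := real_abs hC hmet R M hR
    ↥(Subgroup.closure (E ∪ (fun x => g * x * g⁻¹) '' E))
    ((↑) ⁻¹' (E ∪ (fun x => g * x * g⁻¹) '' E)) (hfin.preimage Subtype.val_injective.injOn)
    Subgroup.closure_closure_coe_preimage ρ hρ σ hσ T hT
  exact ⟨P, iP, f, p, hP, hf, fun x y hx hy => hp x y (h x y hx hy)⟩

/-- **extensions, local form** -/
theorem ext_local (hC : ClosedE C) (hmet : HasMet C) {G : Type} [Group G] (N : Subgroup G)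
    [N.Normal] (hQ : C (G ⧸ N))
    (h : ∀ (g : G) (E : Set G), E.Finite → E ⊆ N →
      ∃ (R : Type) (_ : CommRing R) (M : Type) (_ : AddCommGroup M) (_ : Module R M)
        (ρ : ↥(Subgroup.closure (E ∪ (fun x => g * x * g⁻¹) '' E)) →* Module.End R M)
        (σ : R ≃+* R) (T : M ≃+ M), ResGL C R M ∧ Module.Finite R M ∧ Function.Injective ρ ∧
        (∀ x : R, ∃ m : ℕ, 0 < m ∧ (σ ^ m) x = x) ∧ (∀ (r : R) (m : M), T (r • m) = σ r • T m) ∧
        ∀ x y : ↥(Subgroup.closure (E ∪ (fun x => g * x * g⁻¹) '' E)), (x : G) ∈ E →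
          (y : G) = g * x * g⁻¹ → ∀ m : M, ρ y (T m) = T (ρ x m)) : C G := by
  refine Pool.Agent.R779.FJ.t_crit Pool.Agent.Y529.FJ.t_ext
    (Pool.Agent.Y961.FJ.t_perm Pool.Agent.Y529.FJ.t_ext) C hC G N hQ fun g E hE hEN => ?_
  obtain ⟨R, _, M, _, _, ρ, σ, T, hR, hM, hρ, hσ, hT, h1⟩ := h g E hE hEN
  exact realized_of hC hmet g E hE R M hR ρ hρ σ hσ T hT h1

end Pool.Agent.R703.FJ
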